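import Pool.Agent.Helper51.Hart.Defs2

/-!
# Gluing of local approximations with a partition of unity (HT-18)
-/

set_option autoImplicit false

noncomputable section

open Set Metric Complex MeasureTheory

namespace Pool.Helper51.Hart

variable {σ : ℝ × ℂ → ℝ} {m : ℕ}

namespace Glue62

/-! ### calculus of `dbar` -/

theorem dbar_congr {f g : ℂ → ℂ} {w : ℂ} (h : f =ᶠ[nhds w] g) : dbar f w = dbar g w := by
  unfold dbar
  rw [h.fderiv_eq]

theorem dbar_mul {f g : ℂ → ℂ} {w : ℂ} (hf : DifferentiableAt ℝ f w)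
    (hg : DifferentiableAt ℝ g w) :
    dbar (fun z => f z * g z) w = dbar f w * g w + f w * dbar g w := by
  unfold dbar
  rw [fderiv_fun_mul hf hg]
  simp only [FunLike.coe_add, FunLike.coe_smul, Pi.add_apply, Pi.smul_apply, smul_eq_mul]
  ring

theorem dbar_sum {ι : Type*} (s : Finset ι) (f : ι → ℂ → ℂ) {w : ℂ}
    (h : ∀ i ∈ s, DifferentiableAt ℝ (f i) w) :
    dbar (fun z => ∑ i ∈ s, f i z) w = ∑ i ∈ s, dbar (f i) w := by
  unfold dbar
  rw [fderiv_fun_sum h]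
  simp [Finset.sum_add_distrib, Finset.mul_sum]

theorem dbar_hol {f : ℂ → ℂ} {w : ℂ} (h : DifferentiableAt ℂ f w) : dbar f w = 0 := by
  have h1 := h.hasDerivAt.hasFDerivAt.restrictScalars ℝ
  unfold dbar
  rw [h1.fderiv]
  simp
  ring_nf
  simp

theorem dbar_bound {f : ℂ → ℂ} (hf : ContDiff ℝ ((⊤ : ℕ∞) : WithTop ℕ∞) f)
    (hc : HasCompactSupport f) : ∃ D : ℝ, 0 ≤ D ∧ ∀ w, ‖dbar f w‖ ≤ D := by
  obtain ⟨C, hC⟩ := (hc.fderiv (𝕜 := ℝ)).exists_bound_of_continuous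
    (hf.continuous_fderiv (by simp))
  have hC0 : 0 ≤ C := (norm_nonneg _).trans (hC 0)
  refine ⟨2 * C, by linarith, fun w => ?_⟩
  unfold dbar
  have h1 : ‖fderiv ℝ f w 1‖ ≤ C := by
    have := (fderiv ℝ f w).le_opNorm 1
    simp only [norm_one, mul_one] at this
    exact this.trans (hC w)
  have h2 : ‖fderiv ℝ f w I‖ ≤ C := by
    have := (fderiv ℝ f w).le_opNorm I
    simp only [norm_I, mul_one] at this
    exact this.trans (hC w)
  calc ‖fderiv ℝ f w 1 + I * fderiv ℝ f w I‖ ≤ ‖fderiv ℝ f w 1‖ + ‖I * fderiv ℝ f w I‖ :=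
        norm_add_le _ _
    _ ≤ C + C := by
        rw [norm_mul, norm_I, one_mul]
        exact add_le_add h1 h2
    _ = 2 * C := by ring

/-! ### openness -/

theorem P_nhds (X : Cover σ m) {l : ℝ} {i : Fin m} {w : ℂ} (hw : w ∈ X.P l i) :
    ∀ᶠ z in nhds w, z ∈ X.P l i := by
  obtain ⟨h1, r, ⟨hr, r', w', h2, h3, h4, h5⟩, h6⟩ := hw
  have e1 : ∀ᶠ z in nhds w, ‖z - X.c i‖ < X.δ i / 2 :=
    ContinuousAt.eventually_lt (by fun_prop) (by fun_prop) h1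
  have e2 : ∀ᶠ z in nhds w, ‖z - w'‖ < l :=
    ContinuousAt.eventually_lt (by fun_prop) (by fun_prop) h5
  filter_upwards [e1, e2] with z hz1 hz2
  exact ⟨hz1, r, ⟨hr, r', w', h2, h3, h4, hz2⟩, h6⟩

theorem S_nhds (X : Cover σ m) {l : ℝ} {i j : Fin m} {w : ℂ} (hw : w ∈ X.S l i j) :
    ∀ᶠ z in nhds w, z ∈ X.S l i j := by
  obtain ⟨h1, h1', r, ⟨hr, r', w', h2, h3, h4, h5⟩, h6⟩ := hw
  have e1 : ∀ᶠ z in nhds w, ‖z - X.c i‖ < X.δ i / 2 :=
    ContinuousAt.eventually_lt (by fun_prop) (by fun_prop) h1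
  have e1' : ∀ᶠ z in nhds w, ‖z - X.c j‖ < X.δ j / 2 :=
    ContinuousAt.eventually_lt (by fun_prop) (by fun_prop) h1'
  have e2 : ∀ᶠ z in nhds w, ‖z - w'‖ < l :=
    ContinuousAt.eventually_lt (by fun_prop) (by fun_prop) h5
  filter_upwards [e1, e1', e2] with z hz1 hz1' hz2
  exact ⟨hz1, hz1', r, ⟨hr, r', w', h2, h3, h4, hz2⟩, h6⟩

theorem S_sub_right (X : Cover σ m) {l : ℝ} {i j : Fin m} {w : ℂ} (hw : w ∈ X.S l i j) :
    w ∈ X.P l j := by
  obtain ⟨_, h1, r, h2, _, h3⟩ := hw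
  exact ⟨h1, r, h2, h3⟩

/-- over a gluing set of `i` and `j`, the sheets of `i` and `j` are the same -/
theorem S_trans (X : Cover σ m) {l : ℝ} (hT : Transfer X l) {i j k : Fin m} {w : ℂ}
    (h : w ∈ X.S l i j) (h' : w ∈ X.S l i k) : w ∈ X.S l j k := by
  obtain ⟨h1, h2, r, h3, h4, h5⟩ := h
  obtain ⟨_, h2', r', h3', h4', h5'⟩ := h'
  exact ⟨h2, h2', r', h3', hT i j r r' w h1 h2 h3 h3' h4 h5 h4', h5'⟩

theorem S_symm (X : Cover σ m) {l : ℝ} {i j : Fin m} {w : ℂ}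
    (h : w ∈ X.S l i j) : w ∈ X.S l j i := by
  obtain ⟨h1, h2, r, h3, h4, h5⟩ := h
  exact ⟨h2, h1, r, h3, h5, h4⟩

/-- a closed slice point near a point of the chart domain -/
theorem exists_pt (X : Cover σ m) {g : ℝ} (hg : Gap X g) {l : ℝ} (hlg : l ≤ g) {i : Fin m}
    (hli : l ≤ X.δ i / 2) {w : ℂ} (hw : w ∈ X.P l i) :
    ∃ r' w', 0 ≤ r' ∧ σ (r', w') ≤ 0 ∧ X.InN i r' ∧ ‖w - w'‖ < l := by
  obtain ⟨h1, r, ⟨hr, r', w', h2, h3, h4, h5⟩, h6, h7⟩ := hw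
  refine ⟨r', w', h2, h3, ?_, h5⟩
  have h8 : ‖w' - X.c i‖ ≤ X.δ i := by
    have : ‖w' - X.c i‖ ≤ ‖w' - w‖ + ‖w - X.c i‖ := by
      have := norm_add_le (w' - w) (w - X.c i)
      rwa [sub_add_sub_cancel] at this
    rw [norm_sub_rev w' w] at this
    linarith
  obtain ⟨h9, h10⟩ := hg.2 i r' w' h2 h3 h8
  rw [abs_lt] at h4
  constructor
  · rcases le_abs.1 h9 with h | h
    · linarith [hg.1]
    · linarith
  · rcases le_abs.1 h10 with h | h
    · linarith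
    · linarith [hg.1]

/-- every point of a chart domain is in a gluing set with a box which covers it well -/
theorem exists_cov (X : Cover σ m) {g : ℝ} (hg : Gap X g) {l : ℝ} (hlg : l ≤ g)
    (hl : ∀ j, l ≤ X.δ j / 15) {i : Fin m} {w : ℂ} (hw : w ∈ X.P l i) :
    ∃ j, w ∈ X.S l i j ∧ ‖w - X.c j‖ < 2 / 5 * X.δ j := by
  obtain ⟨h1, r, ⟨hr, r', w', h2, h3, h4, h5⟩, h6⟩ := hw
  obtain ⟨j, hj1, hj2, hj3⟩ := X.cov r' w' h2 h3
  have hδ := (X.box j).hδ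
  have hlj := hl j
  have h7 : ‖w - X.c j‖ < 2 / 5 * X.δ j := by
    have : ‖w - X.c j‖ ≤ ‖w - w'‖ + ‖w' - X.c j‖ := by
      have := norm_add_le (w - w') (w' - X.c j)
      rwa [sub_add_sub_cancel] at this
    linarith
  obtain ⟨h9, h10⟩ := hg.2 j r' w' h2 h3 (by linarith)
  have h4' := abs_lt.1 h4
  refine ⟨j, ⟨h1, by linarith, r, ⟨hr, r', w', h2, h3, h4, h5⟩, h6, ?_, ?_⟩, h7⟩
  · rcases le_abs.1 h9 with h | h
    · linarith
    · linarith [hg.1]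
  · rcases le_abs.1 h10 with h | h
    · linarith [hg.1]
    · linarith

/-! ### the cut off functions -/

/-- the cut off function of the box `j` -/
def bump (X : Cover σ m) (j : Fin m) : ContDiffBump (X.c j) where
  rIn := 2 / 5 * X.δ j
  rOut := 9 / 20 * X.δ j
  rIn_pos := by have := (X.box j).hδ; positivity
  rIn_lt_rOut := by have := (X.box j).hδ; linarith

/-- the cut off function of the box `j`, complex valued -/
def bc (X : Cover σ m) (j : Fin m) (w : ℂ) : ℂ := ((bump X j w : ℝ) : ℂ)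

theorem bc_smooth (X : Cover σ m) (j : Fin m) :
    ContDiff ℝ ((⊤ : ℕ∞) : WithTop ℕ∞) (bc X j) :=
  Complex.ofRealCLM.contDiff.comp (bump X j).contDiff

theorem bc_cpt (X : Cover σ m) (j : Fin m) : HasCompactSupport (bc X j) :=
  (bump X j).hasCompactSupport.comp_left (g := fun x : ℝ => (x : ℂ)) (by simp)

theorem bump_far (X : Cover σ m) (j : Fin m) {w : ℂ} (hw : X.δ j / 2 ≤ ‖w - X.c j‖) :
    ∀ᶠ z in nhds w, bump X j z = 0 := by
  have hδ := (X.box j).hδ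
  have h1 : 9 / 20 * X.δ j < ‖w - X.c j‖ := by linarith
  have e1 : ∀ᶠ z in nhds w, 9 / 20 * X.δ j < ‖z - X.c j‖ :=
    ContinuousAt.eventually_lt (by fun_prop) (by fun_prop) h1
  filter_upwards [e1] with z hz
  apply (bump X j).zero_of_le_dist
  rw [dist_eq_norm]
  exact hz.le

theorem bump_one (X : Cover σ m) (j : Fin m) {w : ℂ} (hw : ‖w - X.c j‖ < 2 / 5 * X.δ j) :
    bump X j w = 1 := by
  apply (bump X j).one_of_mem_closedBall
  rw [mem_closedBall, dist_eq_norm]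
  exact hw.le

open Classical in
/-- weighted sums over the boxes which share the sheet -/
def NS (X : Cover σ m) (l : ℝ) (i : Fin m) (f : Fin m → ℂ → ℂ) (w : ℂ) : ℂ :=
  ∑ j, if w ∈ X.S l i j then bc X j w * f j w else 0

open Classical in
/-- the boxes which share the sheet -/
def JJ (X : Cover σ m) (l : ℝ) (i : Fin m) (w : ℂ) : Finset (Fin m) :=
  Finset.univ.filter fun j => w ∈ X.S l i j

theorem mem_JJ (X : Cover σ m) {l : ℝ} {i j : Fin m} {w : ℂ} :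
    j ∈ JJ X l i w ↔ w ∈ X.S l i j := by
  simp [JJ]

theorem NS_eq (X : Cover σ m) (l : ℝ) (i : Fin m) (f : Fin m → ℂ → ℂ) (w : ℂ) :
    NS X l i f w = ∑ j ∈ JJ X l i w, bc X j w * f j w := by
  rw [NS, JJ, Finset.sum_filter]

theorem NS_local (X : Cover σ m) {l : ℝ} {i : Fin m} {w₀ : ℂ}
    (hclop : ∀ j, ‖w₀ - X.c j‖ < X.δ j / 2 → w₀ ∉ X.S l i j →
      ∀ᶠ w' in nhds w₀, w' ∉ X.S l i j) (f : Fin m → ℂ → ℂ) :
    ∀ᶠ w in nhds w₀, NS X l i f w = ∑ j ∈ JJ X l i w₀, bc X j w * f j w := by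
  classical
  have h : ∀ j : Fin m, ∀ᶠ w in nhds w₀, (if w ∈ X.S l i j then bc X j w * f j w else 0) =
      if w₀ ∈ X.S l i j then bc X j w * f j w else 0 := by
    intro j
    by_cases hj : w₀ ∈ X.S l i j
    · filter_upwards [S_nhds X hj] with w hw
      rw [if_pos hw, if_pos hj]
    · by_cases hd : ‖w₀ - X.c j‖ < X.δ j / 2
      · filter_upwards [hclop j hd hj] with w hw
        rw [if_neg hw, if_neg hj]
      · filter_upwards [bump_far X j (not_lt.1 hd)] with w hw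
        rw [if_neg hj]
        split_ifs
        · rw [bc, hw]
          simp
        · rfl
  filter_upwards [Filter.eventually_all.2 h] with w hw
  rw [NS, JJ, Finset.sum_filter]
  exact Finset.sum_congr rfl fun j _ => hw j

theorem NS_trans (X : Cover σ m) {l : ℝ} (hT : Transfer X l) {i j : Fin m} {w : ℂ}
    (h : w ∈ X.S l i j) (f : Fin m → ℂ → ℂ) : NS X l i f w = NS X l j f w := by
  classical
  rw [NS, NS]
  refine Finset.sum_congr rfl fun k _ => ?_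
  have : w ∈ X.S l i k ↔ w ∈ X.S l j k :=
    ⟨fun h' => S_trans X hT h h', fun h' => S_trans X hT (S_symm X h) h'⟩
  by_cases h1 : w ∈ X.S l i k
  · rw [if_pos h1, if_pos (this.1 h1)]
  · rw [if_neg h1, if_neg fun h2 => h1 (this.2 h2)]

/-- the sum of the weights -/
def WS (X : Cover σ m) (l : ℝ) (i : Fin m) (w : ℂ) : ℝ := ∑ j ∈ JJ X l i w, bump X j w

theorem NS_one (X : Cover σ m) (l : ℝ) (i : Fin m) (w : ℂ) :
    NS X l i (fun _ _ => 1) w = ((WS X l i w : ℝ) : ℂ) := by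
  rw [NS_eq, WS]
  push_cast
  exact Finset.sum_congr rfl fun j _ => by rw [mul_one, bc]

theorem one_le_WS (X : Cover σ m) {g : ℝ} (hg : Gap X g) {l : ℝ} (hlg : l ≤ g)
    (hl : ∀ j, l ≤ X.δ j / 15) {i : Fin m} {w : ℂ} (hw : w ∈ X.P l i) :
    1 ≤ WS X l i w := by
  obtain ⟨j, hj, hj'⟩ := exists_cov X hg hlg hl hw
  calc (1 : ℝ) = bump X j w := (bump_one X j hj').symm
    _ ≤ _ := Finset.single_le_sum (f := fun j => bump X j w)
        (fun k _ => (bump X k).nonneg) ((mem_JJ X).2 hj)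

theorem mean_le (X : Cover σ m) {l : ℝ} {i : Fin m} {w : ℂ} (hW : 1 ≤ WS X l i w)
    {q : Fin m → ℂ → ℂ} {τ : ℂ} {κ : ℝ} (h : ∀ j ∈ JJ X l i w, ‖q j w - τ‖ ≤ κ) :
    ‖NS X l i q w / NS X l i (fun _ _ => 1) w - τ‖ ≤ κ := by
  have hW0 : (0 : ℝ) < WS X l i w := by linarith
  have hWc : ((WS X l i w : ℝ) : ℂ) ≠ 0 := by exact_mod_cast hW0.ne'
  rw [NS_one]
  have h1 : NS X l i q w / ((WS X l i w : ℝ) : ℂ) - τ =
      (∑ j ∈ JJ X l i w, bc X j w * (q j w - τ)) / ((WS X l i w : ℝ) : ℂ) := by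
    rw [div_sub' hWc]
    congr 1
    rw [NS_eq, WS]
    push_cast
    rw [Finset.sum_mul, ← Finset.sum_sub_distrib]
    exact Finset.sum_congr rfl fun j _ => by rw [bc]; ring
  rw [h1, norm_div, Complex.norm_real, Real.norm_eq_abs, abs_of_pos hW0, div_le_iff₀ hW0]
  calc ‖∑ j ∈ JJ X l i w, bc X j w * (q j w - τ)‖
      ≤ ∑ j ∈ JJ X l i w, ‖bc X j w * (q j w - τ)‖ := norm_sum_le _ _
    _ ≤ ∑ j ∈ JJ X l i w, κ * bump X j w := by
        refine Finset.sum_le_sum fun j hj => ?_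
        rw [norm_mul, bc, Complex.norm_real, Real.norm_eq_abs, abs_of_nonneg (bump X j).nonneg,
          mul_comm]
        exact mul_le_mul_of_nonneg_right (h j hj) (bump X j).nonneg
    _ = κ * WS X l i w := by rw [WS, Finset.mul_sum]

theorem exists_l1 (X : Cover σ m) {g : ℝ} (hg : 0 < g) :
    ∃ l1 : ℝ, 0 < l1 ∧ l1 ≤ g ∧ ∀ j, l1 ≤ X.δ j / 15 := by
  have h1 : ∀ᶠ l in nhdsWithin (0 : ℝ) (Ioi 0), l ≤ g := by
    filter_upwards [Ioc_mem_nhdsGT hg] with l hl using hl.2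
  have h2 : ∀ᶠ l in nhdsWithin (0 : ℝ) (Ioi 0), ∀ j : Fin m, l ≤ X.δ j / 15 := by
    rw [Filter.eventually_all]
    intro j
    have := (X.box j).hδ
    filter_upwards [Ioc_mem_nhdsGT (show (0 : ℝ) < X.δ j / 15 by positivity)] with l hl using hl.2
  have h0 : ∀ᶠ l in nhdsWithin (0 : ℝ) (Ioi 0), 0 < l := by
    filter_upwards [self_mem_nhdsWithin] with l hl using hl
  obtain ⟨l, hl0, hl1, hl2⟩ := (h0.and (h1.and h2)).exists
  exact ⟨l, hl0, hl1, hl2⟩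

/-- the glued function -/
def GG (X : Cover σ m) (l : ℝ) (Q : Fin m → ℂ → ℂ) (i : Fin m) (w : ℂ) : ℂ :=
  NS X l i Q w / NS X l i (fun _ _ => 1) w

theorem GG_contDiffAt (X : Cover σ m) {l : ℝ} {i : Fin m} {w₀ : ℂ}
    (hclop : ∀ j, ‖w₀ - X.c j‖ < X.δ j / 2 → w₀ ∉ X.S l i j →
      ∀ᶠ w' in nhds w₀, w' ∉ X.S l i j) (hW : 1 ≤ WS X l i w₀) {Q : Fin m → ℂ → ℂ}
    (hQ : ∀ j, DifferentiableOn ℂ (Q j) (X.P l j)) :
    ContDiffAt ℝ 1 (GG X l Q i) w₀ := by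
  have h1 := NS_local X hclop Q
  have h2 := NS_local X hclop fun _ _ => 1
  have h3 : GG X l Q i =ᶠ[nhds w₀] fun w => (∑ j ∈ JJ X l i w₀, bc X j w * Q j w) /
      ∑ j ∈ JJ X l i w₀, bc X j w * 1 := by
    filter_upwards [h1, h2] with w hw1 hw2
    rw [GG, hw1, hw2]
  refine ContDiffAt.congr_of_eventuallyEq ?_ h3
  have hb : ∀ j, ContDiffAt ℝ 1 (bc X j) w₀ := fun j =>
    ((bc_smooth X j).of_le (by simp)).contDiffAt
  simp only [div_eq_mul_inv]
  apply ContDiffAt.mul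
  · refine ContDiffAt.sum fun j hj => (hb j).mul ?_
    have hj' := S_sub_right X ((mem_JJ X).1 hj)
    have := (hQ j).analyticAt (P_nhds X hj')
    exact (this.contDiffAt (n := 1)).restrict_scalars ℝ
  · refine ContDiffAt.inv (ContDiffAt.sum fun j hj => (hb j).mul contDiffAt_const) ?_
    have h4 := h2.self_of_nhds
    rw [← h4, NS_one]
    have : (WS X l i w₀ : ℝ) ≠ 0 := by linarith
    exact_mod_cast this

theorem GG_dbar (X : Cover σ m) {l : ℝ} {i : Fin m} {w₀ : ℂ}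
    (hclop : ∀ j, ‖w₀ - X.c j‖ < X.δ j / 2 → w₀ ∉ X.S l i j →
      ∀ᶠ w' in nhds w₀, w' ∉ X.S l i j) (hW : 1 ≤ WS X l i w₀) {Q : Fin m → ℂ → ℂ}
    (hQ : ∀ j, DifferentiableOn ℂ (Q j) (X.P l j)) {D κ : ℝ} (hD : ∀ j w, ‖dbar (bc X j) w‖ ≤ D)
    {τ : ℂ} (hτ : ∀ j ∈ JJ X l i w₀, ‖Q j w₀ - τ‖ ≤ κ) :
    ‖dbar (GG X l Q i) w₀‖ ≤ 2 * m * D * κ := by
  have h1 := NS_local X hclop Q
  have h2 := NS_local X hclop fun _ _ => 1
  have hG := (GG_contDiffAt X hclop hW hQ).differentiableAt (by norm_num)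
  have hbd : ∀ j, DifferentiableAt ℝ (bc X j) w₀ := fun j =>
    (bc_smooth X j).contDiffAt.differentiableAt (by simp)
  have hQd : ∀ j ∈ JJ X l i w₀, DifferentiableAt ℂ (Q j) w₀ := fun j hj =>
    (hQ j).differentiableAt (P_nhds X (S_sub_right X ((mem_JJ X).1 hj)))
  have hWS : ContinuousAt (fun w => ∑ j ∈ JJ X l i w₀, bc X j w) w₀ := by
    refine tendsto_finsetSum _ fun j _ => ?_
    exact (bc_smooth X j).continuous.continuousAt
  have hS0 : (∑ j ∈ JJ X l i w₀, bc X j w₀) = ((WS X l i w₀ : ℝ) : ℂ) := by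
    rw [WS]
    push_cast
    rfl
  have hWne : ((WS X l i w₀ : ℝ) : ℂ) ≠ 0 := by
    have : (WS X l i w₀ : ℝ) ≠ 0 := by linarith
    exact_mod_cast this
  have hne : ∀ᶠ w in nhds w₀, (∑ j ∈ JJ X l i w₀, bc X j w) ≠ 0 :=
    hWS.eventually_ne (by rw [hS0]; exact hWne)
  have h3 : (fun w => GG X l Q i w * ∑ j ∈ JJ X l i w₀, bc X j w) =ᶠ[nhds w₀]
      fun w => ∑ j ∈ JJ X l i w₀, bc X j w * Q j w := by
    filter_upwards [h1, h2, hne] with w hw1 hw2 hw3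
    rw [GG, hw1, hw2]
    simp only [mul_one]
    exact div_mul_cancel₀ _ hw3
  have h4 := dbar_congr h3
  rw [dbar_mul hG (by
    refine DifferentiableAt.fun_sum fun j _ => hbd j), dbar_sum _ _ fun j _ => hbd j,
    dbar_sum _ _ fun j hj => (hbd j).fun_mul ((hQd j hj).restrictScalars ℝ)] at h4
  have h5 : ∀ j ∈ JJ X l i w₀, dbar (fun z => bc X j z * Q j z) w₀ =
      dbar (bc X j) w₀ * Q j w₀ := fun j hj => by
    rw [dbar_mul (hbd j) ((hQd j hj).restrictScalars ℝ), dbar_hol (hQd j hj), mul_zero, add_zero]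
  rw [Finset.sum_congr rfl h5, hS0] at h4
  have h6 : dbar (GG X l Q i) w₀ * ((WS X l i w₀ : ℝ) : ℂ) =
      ∑ j ∈ JJ X l i w₀, dbar (bc X j) w₀ * (Q j w₀ - GG X l Q i w₀) := by
    have : ∑ j ∈ JJ X l i w₀, dbar (bc X j) w₀ * (Q j w₀ - GG X l Q i w₀) =
        ∑ j ∈ JJ X l i w₀, dbar (bc X j) w₀ * Q j w₀ -
          GG X l Q i w₀ * ∑ j ∈ JJ X l i w₀, dbar (bc X j) w₀ := by
      rw [Finset.mul_sum, ← Finset.sum_sub_distrib]
      exact Finset.sum_congr rfl fun j _ => by ring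
    rw [this, ← h4]
    ring
  have hm := mean_le X hW hτ
  have hD0 : 0 ≤ D ∨ m = 0 := by
    rcases Nat.eq_zero_or_pos m with h | h
    · exact Or.inr h
    · exact Or.inl ((norm_nonneg _).trans (hD ⟨0, h⟩ 0))
  have h7 : ‖dbar (GG X l Q i) w₀‖ * WS X l i w₀ ≤ 2 * m * D * κ := by
    have : ‖dbar (GG X l Q i) w₀‖ * WS X l i w₀ =
        ‖dbar (GG X l Q i) w₀ * ((WS X l i w₀ : ℝ) : ℂ)‖ := by
      rw [norm_mul, Complex.norm_real, Real.norm_eq_abs, abs_of_nonneg (by linarith)]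
    rw [this, h6]
    have hκ : ∀ j ∈ JJ X l i w₀, ‖Q j w₀ - GG X l Q i w₀‖ ≤ 2 * κ := fun j hj => by
      have e : Q j w₀ - GG X l Q i w₀ = (Q j w₀ - τ) - (GG X l Q i w₀ - τ) := by ring
      rw [e]
      refine (norm_sub_le _ _).trans ?_
      have := hτ j hj
      have h8 : ‖GG X l Q i w₀ - τ‖ ≤ κ := hm
      linarith
    have hD' : 0 ≤ D := by
      rcases hD0 with h | h
      · exact h
      · subst h
        exact i.elim0
    calc ‖∑ j ∈ JJ X l i w₀, dbar (bc X j) w₀ * (Q j w₀ - GG X l Q i w₀)‖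
        ≤ ∑ j ∈ JJ X l i w₀, ‖dbar (bc X j) w₀ * (Q j w₀ - GG X l Q i w₀)‖ := norm_sum_le _ _
      _ ≤ ∑ j ∈ JJ X l i w₀, D * (2 * κ) := by
          refine Finset.sum_le_sum fun j hj => ?_
          rw [norm_mul]
          exact mul_le_mul (hD j w₀) (hκ j hj) (norm_nonneg _) hD'
      _ = (JJ X l i w₀).card * (D * (2 * κ)) := by
          rw [Finset.sum_const, nsmul_eq_mul]
      _ ≤ m * (D * (2 * κ)) := by
          have hκ0 : 0 ≤ D * (2 * κ) ∨ (JJ X l i w₀).card = 0 := by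
            rcases (JJ X l i w₀).eq_empty_or_nonempty with h | ⟨j, hj⟩
            · right; rw [h]; rfl
            · left
              exact mul_nonneg hD' ((norm_nonneg _).trans (hκ j hj))
          have hcard : ((JJ X l i w₀).card : ℝ) ≤ m := by
            have := Finset.card_le_univ (JJ X l i w₀)
            rw [Fintype.card_fin] at this
            exact_mod_cast this
          have hκ1 : 0 ≤ κ := (norm_nonneg _).trans hm
          exact mul_le_mul_of_nonneg_right hcard (by positivity)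
      _ = 2 * m * D * κ := by ring
  refine le_trans ?_ h7
  exact le_mul_of_one_le_right (norm_nonneg _) hW

end Glue62

open Glue62 in
/-- HT-18 -/
theorem glue (X : Cover σ m) {g : ℝ} (hg : Gap X g) :
    ∃ C l1 : ℝ, 0 ≤ C ∧ 0 < l1 ∧ ∀ l, 0 < l → l ≤ l1 → Transfer X l →
      (∀ i j, ∀ w ∈ X.P l i, ‖w - X.c j‖ < X.δ j / 2 → w ∉ X.S l i j →
        ∀ᶠ w' in nhds w, w' ∉ X.S l i j) →
      ∀ (κ : ℝ) (Q : Fin m → ℂ → ℂ) (T : ℝ → ℂ → ℂ → ℂ),
        (∀ i, DifferentiableOn ℂ (Q i) (X.P l i)) →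
        (∀ i, ∀ w ∈ X.P l i, ∀ r' w', 0 ≤ r' → σ (r', w') ≤ 0 → X.InN i r' →
          ‖w - w'‖ < l → ‖Q i w - T r' w' w‖ ≤ κ) →
        ∃ G : Fin m → ℂ → ℂ, (∀ i, ContDiffOn ℝ 1 (G i) (X.P l i)) ∧
          (∀ i j, ∀ w ∈ X.S l i j, G i w = G j w) ∧
          (∀ i, ∀ w ∈ X.P l i, ‖dbar (G i) w‖ ≤ C * κ) ∧
          ∀ i, ∀ w ∈ X.P l i, ∀ r' w', 0 ≤ r' → σ (r', w') ≤ 0 → X.InN i r' →
            ‖w - w'‖ < l → ‖G i w - T r' w' w‖ ≤ κ := by
  choose D hD0 hD using fun j => dbar_bound (bc_smooth X j) (bc_cpt X j)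
  obtain ⟨l1, hl1, hl1g, hl1δ⟩ := exists_l1 X hg.1
  refine ⟨2 * m * ∑ j, D j, l1,
    mul_nonneg (by positivity) (Finset.sum_nonneg fun j _ => hD0 j), hl1, ?_⟩
  intro l hl hll hT hclop κ Q T hQ hκ
  have hlδ : ∀ j, l ≤ X.δ j / 15 := fun j => hll.trans (hl1δ j)
  have hW : ∀ i, ∀ w ∈ X.P l i, 1 ≤ WS X l i w := fun i w hw =>
    one_le_WS X hg (hll.trans hl1g) hlδ hw
  have hτ : ∀ i, ∀ w ∈ X.P l i, ∀ r' w', 0 ≤ r' → σ (r', w') ≤ 0 → X.InN i r' →
      ‖w - w'‖ < l → ∀ j ∈ JJ X l i w, ‖Q j w - T r' w' w‖ ≤ κ := by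
    intro i w hw r' w' hr' hs hi hww j hj
    rw [mem_JJ] at hj
    obtain ⟨h1, h2, r, h3, h4, h5⟩ := hj
    have hnear : Near σ l r' w := ⟨hr', r', w', hr', hs, by simpa using hl, hww⟩
    exact hκ j w ⟨h2, r, h3, h5⟩ r' w' hr' hs (hT i j r r' w h1 h2 h3 hnear h4 h5 hi) hww
  refine ⟨GG X l Q, ?_, ?_, ?_, ?_⟩
  · intro i w hw
    exact (GG_contDiffAt X (fun j => hclop i j w hw) (hW i w hw) hQ).contDiffWithinAt
  · intro i j w hw
    rw [GG, GG, NS_trans X hT hw, NS_trans X hT hw]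
  · intro i w hw
    have hli : l ≤ X.δ i / 2 := by
      have := hlδ i
      have := (X.box i).hδ
      linarith
    obtain ⟨r', w', h1, h2, h3, h4⟩ := exists_pt X hg (hll.trans hl1g) hli hw
    refine GG_dbar X (fun j => hclop i j w hw) (hW i w hw) hQ (D := ∑ j, D j) ?_
      (hτ i w hw r' w' h1 h2 h3 h4)
    intro j z
    exact (hD j z).trans (Finset.single_le_sum (fun k _ => hD0 k) (Finset.mem_univ j))
  · intro i w hw r' w' h1 h2 h3 h4
    exact mean_le X (hW i w hw) (hτ i w hw r' w' h1 h2 h3 h4)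

end Pool.Helper51.Hart
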