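import Pool.Agent.Helper51.Hart.Defs2

/-!
# Local connectedness of the closed slice (HT-05)
-/

set_option autoImplicit false

noncomputable section

open Set Metric Complex MeasureTheory

namespace Pool.Helper51.Hart

variable {σ : ℝ × ℂ → ℝ}

namespace LC62

theorem mem_ball_iff {c p : ℝ × ℂ} {η : ℝ} :
    p ∈ ball c η ↔ |p.1 - c.1| < η ∧ ‖p.2 - c.2‖ < η := by
  rw [mem_ball, Prod.dist_eq, max_lt_iff, Real.dist_eq, dist_eq_norm]

theorem dec (hσ : ContDiff ℝ ((⊤ : ℕ∞) : WithTop ℕ∞) σ) {c p ν : ℝ × ℂ} {η τ : ℝ}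
    (hU : ∀ q ∈ ball c η, fderiv ℝ σ q ν < 0)
    (hp : ∀ t ∈ Icc 0 τ, p + t • ν ∈ ball c η) (h0 : σ p ≤ 0) :
    (∀ t ∈ Ioc 0 τ, σ (p + t • ν) < 0) ∧ ∀ t ∈ Icc 0 τ, σ (p + t • ν) ≤ 0 := by
  have hd : ∀ t : ℝ, HasDerivAt (fun t : ℝ => σ (p + t • ν)) (fderiv ℝ σ (p + t • ν) ν) t := by
    intro t
    have h1 : HasDerivAt (fun t : ℝ => p + t • ν) ν t := by
      have := ((hasDerivAt_id t).smul_const ν).const_add p
      simpa using this
    have h2 : HasFDerivAt σ (fderiv ℝ σ (p + t • ν)) (p + t • ν) :=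
      (hσ.differentiable (by simp) _).hasFDerivAt
    exact h2.comp_hasDerivAt t h1
  have hanti : StrictAntiOn (fun t : ℝ => σ (p + t • ν)) (Icc 0 τ) := by
    apply strictAntiOn_of_deriv_neg (convex_Icc 0 τ)
    · exact fun t _ => (hd t).continuousAt.continuousWithinAt
    · intro t ht
      rw [interior_Icc] at ht
      rw [(hd t).deriv]
      exact hU _ (hp t ⟨ht.1.le, ht.2.le⟩)
  have h1 : ∀ t ∈ Ioc 0 τ, σ (p + t • ν) < 0 := by
    intro t ht
    have := hanti ⟨le_rfl, ht.1.le.trans ht.2⟩ ⟨ht.1.le, ht.2⟩ ht.1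
    simp only [zero_smul, add_zero] at this
    linarith
  refine ⟨h1, fun t ht => ?_⟩
  rcases eq_or_lt_of_le ht.1 with h | h
  · rw [← h]
    simpa using h0
  · exact (h1 t ⟨h, ht.2⟩).le

/-- the direction in which `σ` decreases -/
theorem exists_dir (hσ : Slice σ) {r : ℝ} {w : ℂ} (h : σ (r, w) = 0) :
    ∃ ν : ℝ × ℂ, fderiv ℝ σ (r, w) ν < 0 ∧ (r = 0 → ν.1 = 0) := by
  have h1 := hσ.reg (r, w) h
  obtain ⟨u, hu⟩ : ∃ u, fderiv ℝ σ (r, w) u ≠ 0 := by
    by_contra hcon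
    push Not at hcon
    exact h1 (ContinuousLinearMap.ext hcon)
  obtain ⟨u', hu', hu0⟩ : ∃ u' : ℝ × ℂ, fderiv ℝ σ (r, w) u' ≠ 0 ∧ (r = 0 → u'.1 = 0) := by
    by_cases hr : r = 0
    · subst hr
      refine ⟨(0, u.2), ?_, fun _ => rfl⟩
      have h2 : u = u.1 • ((1 : ℝ), (0 : ℂ)) + (0, u.2) := by
        ext <;> simp
      rw [h2, map_add, map_smul, hσ.deriv0 w h] at hu
      simpa using hu
    · exact ⟨u, hu, fun h => absurd h hr⟩
  rcases lt_or_gt_of_ne hu' with h2 | h2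
  · exact ⟨u', h2, hu0⟩
  · refine ⟨-u', by rw [map_neg]; linarith, fun h3 => ?_⟩
    rw [Prod.fst_neg, hu0 h3, neg_zero]

theorem pt_eq (r : ℝ) (w : ℂ) (ν : ℝ × ℂ) (t : ℝ) :
    ((r, w) : ℝ × ℂ) + t • ν = (r + t * ν.1, w + t * ν.2) := by
  ext <;> simp

/-- the straight segment between two points of a ball -/
theorem seg_mem {c p q : ℝ × ℂ} {η : ℝ} (hp : p ∈ ball c η) (hq : q ∈ ball c η) {t : ℝ}
    (ht : t ∈ Icc (0 : ℝ) 1) :
    ((p.1 + t * (q.1 - p.1), p.2 + t * (q.2 - p.2)) : ℝ × ℂ) ∈ ball c η := by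
  have h := (convex_ball c η).add_smul_sub_mem hp hq ht
  have e : ((p.1 + t * (q.1 - p.1), p.2 + t * (q.2 - p.2)) : ℝ × ℂ) = p + t • (q - p) := by
    ext <;> simp
  rw [e]
  exact h

theorem rad_nonneg {a b t : ℝ} (ha : 0 ≤ a) (hb : 0 ≤ b) (ht : t ∈ Icc (0 : ℝ) 1) :
    0 ≤ a + t * (b - a) := by
  have : a + t * (b - a) = (1 - t) * a + t * b := by ring
  rw [this]
  have := ht.1
  have := ht.2
  have h1 : 0 ≤ 1 - t := by linarith
  positivity

end LC62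

open LC62 in
/-- HT-05 -/
theorem local_conn (hσ : Slice σ) : LocalConn σ := by
  intro r w hr h ε hε
  have hcont : Continuous σ := hσ.smooth.continuous
  rcases lt_or_eq_of_le h with hneg | hzero
  · obtain ⟨δ, hδ, hball⟩ := Metric.isOpen_iff.1 (isOpen_Iio.preimage hcont) (r, w) hneg
    refine ⟨min δ ε, lt_min hδ hε, ?_⟩
    intro r' w' hr' _ h1 h2
    have hp : ((r, w) : ℝ × ℂ) ∈ ball ((r, w) : ℝ × ℂ) (min δ ε) :=
      mem_ball_self (lt_min hδ hε)
    have hq : ((r', w') : ℝ × ℂ) ∈ ball ((r, w) : ℝ × ℂ) (min δ ε) := mem_ball_iff.2 ⟨h1, h2⟩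
    have key : ∀ q ∈ ball ((r, w) : ℝ × ℂ) (min δ ε), σ q ≤ 0 ∧ ‖q.2 - w‖ < ε := by
      intro q hq
      refine ⟨le_of_lt (hball (ball_subset_ball (min_le_left _ _) hq)), ?_⟩
      exact (mem_ball_iff.1 hq).2.trans_le (min_le_right _ _)
    refine ⟨r, w, r', w', ?_, ?_, ?_⟩
    · intro t ht
      have := key _ (seg_mem hp hp ht)
      exact ⟨rad_nonneg hr hr ht, this⟩
    · intro t ht
      have := key _ (seg_mem hp hq ht)
      exact ⟨rad_nonneg hr hr' ht, this⟩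
    · intro t ht
      have := key _ (seg_mem hq hq ht)
      exact ⟨rad_nonneg hr' hr' ht, this⟩
  · obtain ⟨ν, hν, hν0⟩ := exists_dir hσ hzero
    have hfc : Continuous fun q => fderiv ℝ σ q ν :=
      (hσ.smooth.continuous_fderiv (by simp)).clm_apply continuous_const
    obtain ⟨η₀, hη₀, hball₀⟩ := Metric.isOpen_iff.1 (isOpen_Iio.preimage hfc) (r, w) hν
    obtain ⟨η, hη, hηε, hηη⟩ : ∃ η > 0, η ≤ ε ∧ η ≤ η₀ :=
      ⟨min ε η₀, lt_min hε hη₀, min_le_left _ _, min_le_right _ _⟩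
    have hU : ∀ q ∈ ball ((r, w) : ℝ × ℂ) η, fderiv ℝ σ q ν < 0 := fun q hq =>
      hball₀ (ball_subset_ball hηη hq)
    -- size of the radii
    obtain ⟨R, hR, hR'⟩ : ∃ R > 0, ∀ r' : ℝ, 0 ≤ r' → |r' - r| < R → ∀ s : ℝ,
        |s * ν.1| ≤ R → 0 ≤ r' + s * ν.1 := by
      rcases eq_or_lt_of_le hr with h0 | h0
      · refine ⟨1, one_pos, fun r' hr' _ s _ => ?_⟩
        rw [hν0 h0.symm, mul_zero, add_zero]
        exact hr'
      · refine ⟨r / 2, by linarith, fun r' _ h1 s h2 => ?_⟩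
        rw [abs_lt] at h1
        rw [abs_le] at h2
        linarith [h1.1, h2.1]
    obtain ⟨τ, hτ, hτ1, hτ2⟩ : ∃ τ > 0, τ * ‖ν‖ < η / 2 ∧ τ * ‖ν‖ ≤ R := by
      refine ⟨min (η / 2) R / (‖ν‖ + 1), by positivity, ?_, ?_⟩
      · calc min (η / 2) R / (‖ν‖ + 1) * ‖ν‖ < min (η / 2) R := by
              rw [div_mul_eq_mul_div, div_lt_iff₀ (by positivity)]
              have : 0 < min (η / 2) R := by positivity
              nlinarith
          _ ≤ η / 2 := min_le_left _ _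
      · calc min (η / 2) R / (‖ν‖ + 1) * ‖ν‖ ≤ min (η / 2) R := by
              rw [div_mul_eq_mul_div, div_le_iff₀ (by positivity)]
              have : 0 < min (η / 2) R := by positivity
              nlinarith
          _ ≤ R := min_le_right _ _
    have hn1 : ∀ t ∈ Icc 0 τ, |t * ν.1| ≤ τ * ‖ν‖ := by
      intro t ht
      rw [abs_mul, abs_of_nonneg ht.1]
      exact mul_le_mul ht.2 (norm_fst_le ν) (abs_nonneg _) hτ.le
    have hn2 : ∀ t ∈ Icc 0 τ, ‖(t : ℂ) * ν.2‖ ≤ τ * ‖ν‖ := by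
      intro t ht
      rw [norm_mul, Complex.norm_real, Real.norm_eq_abs, abs_of_nonneg ht.1]
      exact mul_le_mul ht.2 (norm_snd_le ν) (norm_nonneg _) hτ.le
    have hin : ∀ (r' : ℝ) (w' : ℂ), |r' - r| < η / 2 → ‖w' - w‖ < η / 2 → ∀ t ∈ Icc 0 τ,
        ((r', w') : ℝ × ℂ) + t • ν ∈ ball ((r, w) : ℝ × ℂ) η := by
      intro r' w' h1 h2 t ht
      rw [pt_eq, mem_ball_iff]
      have e1 := hn1 t ht
      have e2 := hn2 t ht
      constructor
      · simp only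
        calc |r' + t * ν.1 - r| = |(r' - r) + t * ν.1| := by congr 1; ring
          _ ≤ |r' - r| + |t * ν.1| := abs_add_le _ _
          _ < η := by linarith
      · simp only
        calc ‖w' + t * ν.2 - w‖ = ‖(w' - w) + t * ν.2‖ := by congr 1; ring
          _ ≤ ‖w' - w‖ + ‖(t : ℂ) * ν.2‖ := norm_add_le _ _
          _ < η := by linarith
    have hτmem : τ ∈ Icc (0 : ℝ) τ := ⟨hτ.le, le_rfl⟩
    have hself1 : |r - r| < η / 2 := by simpa using hη
    have hself2 : ‖w - w‖ < η / 2 := by simpa using hη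
    have hP1 : σ ((r, w) + τ • ν) < 0 :=
      (dec hσ.smooth hU (hin r w hself1 hself2) h).1 τ ⟨hτ, le_rfl⟩
    obtain ⟨δ₁, hδ₁, hball₁⟩ := Metric.isOpen_iff.1 (isOpen_Iio.preimage hcont) _ hP1
    refine ⟨min (min (η / 2) R) δ₁, by positivity, ?_⟩
    intro r' w' hr' h' h1 h2
    have h1a : |r' - r| < η / 2 := h1.trans_le ((min_le_left _ _).trans (min_le_left _ _))
    have h1b : |r' - r| < R := h1.trans_le ((min_le_left _ _).trans (min_le_right _ _))
    have h1c : |r' - r| < δ₁ := h1.trans_le (min_le_right _ _)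
    have h2a : ‖w' - w‖ < η / 2 := h2.trans_le ((min_le_left _ _).trans (min_le_left _ _))
    have h2c : ‖w' - w‖ < δ₁ := h2.trans_le (min_le_right _ _)
    have hdec := (dec hσ.smooth hU (hin r w hself1 hself2) h).2
    have hdec' := (dec hσ.smooth hU (hin r' w' h1a h2a) h').2
    have hrad : ∀ t ∈ Icc 0 τ, 0 ≤ r + t * ν.1 := fun t ht =>
      hR' r hr (by simpa using hR) t ((hn1 t ht).trans hτ2)
    have hrad' : ∀ t ∈ Icc 0 τ, 0 ≤ r' + t * ν.1 := fun t ht =>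
      hR' r' hr' h1b t ((hn1 t ht).trans hτ2)
    refine ⟨r + τ * ν.1, w + τ * ν.2, r' + τ * ν.1, w' + τ * ν.2, ?_, ?_, ?_⟩
    · intro t ht
      have htτ : t * τ ∈ Icc 0 τ := ⟨mul_nonneg ht.1 hτ.le, mul_le_of_le_one_left hτ.le ht.2⟩
      have e1 : r + t * (r + τ * ν.1 - r) = r + (t * τ) * ν.1 := by ring
      have e2 : w + (t : ℂ) * (w + τ * ν.2 - w) = w + ((t * τ : ℝ) : ℂ) * ν.2 := by
        push_cast; ring
      rw [e1, e2]
      have h3 := hdec _ htτ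
      rw [pt_eq] at h3
      have h4 := mem_ball_iff.1 (hin r w hself1 hself2 _ htτ)
      rw [pt_eq] at h4
      exact ⟨hrad _ htτ, h3, h4.2.trans_le hηε⟩
    · intro t ht
      have hA : ((r + τ * ν.1, w + τ * ν.2) : ℝ × ℂ) ∈ ball ((r, w) + τ • ν) δ₁ := by
        rw [pt_eq]
        exact mem_ball_self hδ₁
      have hB : ((r' + τ * ν.1, w' + τ * ν.2) : ℝ × ℂ) ∈ ball ((r, w) + τ • ν) δ₁ := by
        rw [pt_eq, mem_ball_iff]
        constructor
        · simpa using h1c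
        · simpa using h2c
      have h3 := hball₁ (seg_mem hA hB ht)
      have hA' : ((r + τ * ν.1, w + τ * ν.2) : ℝ × ℂ) ∈ ball ((r, w) : ℝ × ℂ) η := by
        rw [← pt_eq]
        exact hin r w hself1 hself2 τ hτmem
      have hB' : ((r' + τ * ν.1, w' + τ * ν.2) : ℝ × ℂ) ∈ ball ((r, w) : ℝ × ℂ) η := by
        rw [← pt_eq]
        exact hin r' w' h1a h2a τ hτmem
      have h4 := mem_ball_iff.1 (seg_mem hA' hB' ht)
      exact ⟨rad_nonneg (hrad τ hτmem) (hrad' τ hτmem) ht, le_of_lt h3, h4.2.trans_le hηε⟩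
    · intro t ht
      have htτ : (1 - t) * τ ∈ Icc 0 τ :=
        ⟨mul_nonneg (by linarith [ht.2]) hτ.le,
          mul_le_of_le_one_left hτ.le (by linarith [ht.1])⟩
      have e1 : r' + τ * ν.1 + t * (r' - (r' + τ * ν.1)) = r' + ((1 - t) * τ) * ν.1 := by ring
      have e2 : w' + τ * ν.2 + (t : ℂ) * (w' - (w' + τ * ν.2)) =
          w' + (((1 - t) * τ : ℝ) : ℂ) * ν.2 := by
        push_cast; ring
      rw [e1, e2]
      have h3 := hdec' _ htτ
      rw [pt_eq] at h3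
      have h4 := mem_ball_iff.1 (hin r' w' h1a h2a _ htτ)
      rw [pt_eq] at h4
      exact ⟨hrad' _ htτ, h3, h4.2.trans_le hηε⟩

end Pool.Helper51.Hart
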